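import Mathlib

namespace Pool.Agent.Results.MP_2928c2_al.NoFinite

/-- lengths of weakly increasing subsequences of `w` with all letters in `[p, q]` -/
def lens {n : ℕ} (p q : Fin n) (w : List (Fin n)) : Set ℕ :=
  {k | ∃ s : List (Fin n), s.Sublist w ∧ s.Pairwise (· ≤ ·) ∧ (∀ a ∈ s, p ≤ a ∧ a ≤ q) ∧
    s.length = k}

/-- the largest such length -/
noncomputable def ell {n : ℕ} (p q : Fin n) (w : List (Fin n)) : ℕ := sSup (lens p q w)

lemma bdd {n : ℕ} (p q : Fin n) (w : List (Fin n)) : BddAbove (lens p q w) :=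
  ⟨w.length, fun _ ⟨_, hs, _, _, e⟩ => e ▸ hs.length_le⟩

lemma ell_mem {n : ℕ} (p q : Fin n) (w : List (Fin n)) : ell p q w ∈ lens p q w :=
  Nat.sSup_mem ⟨0, [], by simp⟩ (bdd p q w)

lemma le_ell {n : ℕ} {p q : Fin n} {w : List (Fin n)} {k : ℕ} (h : k ∈ lens p q w) :
    k ≤ ell p q w := le_csSup (bdd p q w) h

lemma ell_append_ge {n : ℕ} {p r q : Fin n} (h1 : p ≤ r) (h2 : r ≤ q) (u v : List (Fin n)) :
    ell p r u + ell r q v ≤ ell p q (u ++ v) := by
  obtain ⟨s, a1, a2, a3, a4⟩ := ell_mem p r u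
  obtain ⟨t, b1, b2, b3, b4⟩ := ell_mem r q v
  refine le_ell ⟨s ++ t, a1.append b1, ?_, ?_, by simp [a4, b4]⟩
  · exact List.pairwise_append.2 ⟨a2, b2, fun a ha b hb => (a3 a ha).2.trans (b3 b hb).1⟩
  · intro a ha
    rcases List.mem_append.1 ha with h | h
    · exact ⟨(a3 a h).1, (a3 a h).2.trans h2⟩
    · exact ⟨h1.trans (b3 a h).1, (b3 a h).2⟩

lemma ell_append_le {n : ℕ} {p q : Fin n} (h : p ≤ q) (u v : List (Fin n)) :
    ∃ r, p ≤ r ∧ r ≤ q ∧ ell p q (u ++ v) ≤ ell p r u + ell r q v := by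
  obtain ⟨w, a1, a2, a3, a4⟩ := ell_mem p q (u ++ v)
  obtain ⟨s, t, rfl, hs, ht⟩ := List.sublist_append_iff.1 a1
  obtain ⟨b1, b2, b3⟩ := List.pairwise_append.1 a2
  have : ∃ r, p ≤ r ∧ r ≤ q ∧ (∀ a ∈ s, a ≤ r) ∧ ∀ a ∈ t, r ≤ a := by
    cases t with
    | nil => exact ⟨q, h, le_rfl, fun a ha => (a3 a (by simp [ha])).2, by simp⟩
    | cons x t =>
      refine ⟨x, (a3 x (by simp)).1, (a3 x (by simp)).2, fun a ha => b3 a ha x (by simp), ?_⟩
      intro a ha
      rcases List.mem_cons.1 ha with rfl | ha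
      · exact le_rfl
      · exact (List.pairwise_cons.1 b2).1 a ha
  obtain ⟨r, h1, h2, h3, h4⟩ := this
  refine ⟨r, h1, h2, ?_⟩
  rw [← a4, List.length_append]
  exact add_le_add (le_ell ⟨s, hs, b1, fun a ha => ⟨(a3 a (by simp [ha])).1, h3 a ha⟩, rfl⟩)
    (le_ell ⟨t, ht, b2, fun a ha => ⟨h4 a ha, (a3 a (by simp [ha])).2⟩, rfl⟩)

/-- the grammic congruence on words over `Fin n` -/
def gram (n : ℕ) : Con (FreeMonoid (Fin n)) where
  r u v := ∀ p q : Fin n, p ≤ q → ell p q u.toList = ell p q v.toList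
  iseqv := ⟨fun _ _ _ _ => rfl, fun h p q hpq => (h p q hpq).symm,
    fun h h' p q hpq => (h p q hpq).trans (h' p q hpq)⟩
  mul' := by
    intro w x y z h1 h2 p q hpq
    simp only [FreeMonoid.toList_mul]
    apply le_antisymm
    · obtain ⟨r, a, b, c⟩ := ell_append_le hpq w.toList y.toList
      rw [h1 p r a, h2 r q b] at c
      exact c.trans (ell_append_ge a b _ _)
    · obtain ⟨r, a, b, c⟩ := ell_append_le hpq x.toList z.toList
      rw [← h1 p r a, ← h2 r q b] at c
      exact c.trans (ell_append_ge a b _ _)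

/-- the grammic monoid of rank `n` -/
abbrev G (n : ℕ) : Type := (gram n).Quotient

/-- the semigroup `S` satisfies the identity `e.1 = e.2` between nonempty words -/
def Sat (S : Type) [Semigroup S] (e : FreeSemigroup ℕ × FreeSemigroup ℕ) : Prop :=
  ∀ f : ℕ → S, FreeSemigroup.lift f e.1 = FreeSemigroup.lift f e.2

/-- a class of semigroups -/
abbrev Cls : Type 1 := ∀ (S : Type) [Semigroup S], Prop

/-- the variety defined by a set of identities -/
def Mod (E : Set (FreeSemigroup ℕ × FreeSemigroup ℕ)) : Cls := fun T _ => ∀ e ∈ E, Sat T e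

/-- the variety generated by `S` -/
def var (S : Type) [Semigroup S] : Cls := Mod {e | Sat S e}

/-- commutative semigroups -/
def Com : Cls := fun T _ => ∀ a b : T, a * b = b * a

/-- the smallest variety containing both classes -/
def join (U W : Cls) : Cls := fun T _ =>
  ∀ E, (∀ (S : Type) [Semigroup S], U S → Mod E S) → (∀ (S : Type) [Semigroup S], W S → Mod E S) →
    Mod E T

def pw (k : ℕ) : FreeSemigroup ℕ := ⟨0, List.replicate k 0⟩

lemma pw_succ (k : ℕ) : pw (k + 1) = pw k * FreeSemigroup.of 0 := by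
  ext1
  · rfl
  · simp [pw, List.replicate_succ']

lemma lift_pw {M : Type} [Monoid M] (f : ℕ → M) (k : ℕ) :
    FreeSemigroup.lift f (pw k) = f 0 ^ (k + 1) := by
  induction k with
  | zero => rw [zero_add, pow_one]; rfl
  | succ k ih => rw [pw_succ, map_mul, ih, FreeSemigroup.lift_of, ← pow_succ]

def idn (a b : ℕ) : FreeSemigroup ℕ × FreeSemigroup ℕ :=
  (pw a * FreeSemigroup.of 1 * pw b, pw b * FreeSemigroup.of 1 * pw a)

lemma fin_sat (F : Type) [Monoid F] [Finite F] : ∃ a b, a < b ∧ Sat F (idn a b) := by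
  obtain ⟨a, b, hab, e⟩ := Finite.exists_ne_map_eq_of_infinite (fun k : ℕ => fun x : F => x ^ (k + 1))
  have key : ∀ a b : ℕ, ((fun x : F => x ^ (a + 1)) = fun x => x ^ (b + 1)) → Sat F (idn a b) := by
    intro a b e f
    simp only [idn, map_mul, lift_pw, congrFun e (f 0)]
  rcases lt_or_gt_of_ne hab with h | h
  · exact ⟨a, b, h, key a b e⟩
  · exact ⟨b, a, h, key b a e.symm⟩

lemma com_sat (S : Type) [Semigroup S] (h : Com S) (a b : ℕ) : Sat S (idn a b) := by
  intro f
  simp only [idn, map_mul]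
  generalize FreeSemigroup.lift f (pw a) = x
  generalize FreeSemigroup.lift f (pw b) = z
  generalize FreeSemigroup.lift f (FreeSemigroup.of 1) = y
  rw [h (x * y) z, h x y, mul_assoc]

lemma not_sat {n : ℕ} (hn : 2 ≤ n) {a b : ℕ} (hab : a < b) : ¬ Sat (G n) (idn a b) := by
  intro h
  let x : Fin n := ⟨0, by omega⟩
  let y : Fin n := ⟨1, by omega⟩
  have hxy : x < y := by simp [x, y, Fin.lt_def]
  have h1 := h fun i => (gram n).mk' (if i = 0 then FreeMonoid.of x else FreeMonoid.of y ^ (b + 2))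
  simp only [idn, map_mul, lift_pw, FreeSemigroup.lift_of, if_true, one_ne_zero, if_false,
    ← map_pow] at h1
  rw [← map_mul, ← map_mul, ← map_mul, ← map_mul] at h1
  have h2 := (gram n).eq.1 h1 x y hxy.le
  have hp : ∀ (z : Fin n) k, (FreeMonoid.of z ^ k).toList = List.replicate k z := by
    intro z k
    induction k with
    | zero => rfl
    | succ k ih => rw [pow_succ', FreeMonoid.toList_mul, ih]; rfl
  simp only [FreeMonoid.toList_mul, hp] at h2
  have h3 : b + 1 + (b + 2) ≤ ell x y (List.replicate (b + 1) x ++ List.replicate (b + 2) y ++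
      List.replicate (a + 1) x) := by
    refine le_ell ⟨List.replicate (b + 1) x ++ List.replicate (b + 2) y,
      List.sublist_append_left _ _, ?_, ?_, by simp⟩
    · refine List.pairwise_append.2 ⟨by simp, by simp, fun c hc d hd => ?_⟩
      rw [List.eq_of_mem_replicate hc, List.eq_of_mem_replicate hd]; exact hxy.le
    · intro c hc
      rcases List.mem_append.1 hc with hc | hc <;> rw [List.eq_of_mem_replicate hc]
      · exact ⟨le_rfl, hxy.le⟩
      · exact ⟨hxy.le, le_rfl⟩
  rw [← h2] at h3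
  obtain ⟨w, a1, a2, -, a4⟩ := ell_mem x y (List.replicate (a + 1) x ++ List.replicate (b + 2) y ++
      List.replicate (b + 1) x)
  obtain ⟨s, t3, rfl, hs, h3'⟩ := List.sublist_append_iff.1 a1
  obtain ⟨t1, t2, rfl, h1', h2'⟩ := List.sublist_append_iff.1 hs
  have l1 := h1'.length_le
  have l2 := h2'.length_le
  have l3 := h3'.length_le
  simp only [List.length_replicate, List.length_append] at l1 l2 l3 a4
  obtain ⟨c, hc⟩ := List.exists_mem_of_length_pos (l := t2) (by omega)
  obtain ⟨d, hd⟩ := List.exists_mem_of_length_pos (l := t3) (by omega)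
  have := (List.pairwise_append.1 a2).2.2 c (by simp [hc]) d hd
  rw [List.eq_of_mem_replicate (h2'.subset hc), List.eq_of_mem_replicate (h3'.subset hd)] at this
  exact absurd hxy (not_lt.2 this)

theorem result (n : ℕ) (hn : 2 ≤ n) (F : Type) [Monoid F] [Finite F] :
    var (G n) ≠ var F ∧ var (G n) ≠ join (var F) Com := by
  obtain ⟨a, b, hab, h⟩ := fin_sat F
  have h0 : var (G n) (G n) := fun _ he => he
  constructor
  · intro e
    rw [e] at h0
    exact not_sat hn hab (h0 _ h)
  · intro e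
    rw [e] at h0
    refine not_sat hn hab (h0 {idn a b} ?_ ?_ _ rfl)
    · rintro S _ hS _ rfl
      exact hS _ h
    · rintro S _ hS _ rfl
      exact com_sat S hS a b

end Pool.Agent.Results.MP_2928c2_al.NoFinite
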